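import Pool.Agent.LDCX.Final3

/-!
# Number of queries of locally decodable codes of constant rate with non-adaptive decoders
-/

namespace Pool.Agent.Results.MP_625cb2_lc.AllCodes

open Pool.Agent.LDCX

/-- Arbitrary codes of rate at least `ρ` over an alphabet of `s` symbols, non-adaptive decoders: if
`0 < ρ' < ρ`, `ρ' < q < 1` and `(1 - q)(s - 1) ≤ δ s`, then `t ≥ log n / D(q‖ρ')` for all large `n`. -/
theorem result (ρ ρ' δ q : ℝ) (hδ : 0 < δ) (hρ' : 0 < ρ') (hρρ : ρ' < ρ) (hρq : ρ' < q) (hq1 : q < 1) :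
    ∃ n₀ : ℕ, ∀ n : ℕ, n₀ ≤ n → ∀ (S : Type) [Fintype S] [Nontrivial S],
      (1 - q) * (Fintype.card S - 1) ≤ δ * Fintype.card S → ∀ (k t : ℕ) (E : (Fin k → S) → (Fin n → S)),
      ρ * n ≤ k → IsNonAdLDC E δ t →
      Real.log n / (q * Real.log (q / ρ') + (1 - q) * Real.log ((1 - q) / (1 - ρ'))) ≤ t :=
  general_final2 ρ ρ' δ q hδ hρ' hρρ hρq hq1

end Pool.Agent.Results.MP_625cb2_lc.AllCodes
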