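import Pool.Agent.LDCX.QFinal2
import Pool.Agent.LDCX.NearOne

/-!
# Number of queries of linear locally decodable codes of constant rate

The decoders may be adaptive. Natural logarithms; the quotients do not depend on the base.
-/

open scoped BigOperators

namespace Pool.Agent.Results.MP_625cb2_lc.LinearCodes

open Pool.Agent.LDCX

/-- Linear codes over a field with `q` elements (decoders may be adaptive).

First part: let `L` be a probability vector on a finite set `Y`, and `π y` a probability vector on `F` for every `y`,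
with average entropy `∑ y, L y * H(π y) < ρ log q`, and `B = q * ∑ y, L y * (∏ s, π y s) ^ (1 / q)`. Then every code of
rate at least `ρ` and large length `n` needs at least `log n / log (1 / B)` queries.

Second part (rate near one, binary codes): rate `≥ 1 - α` with `α` small forces
`t ≥ (1 - ε) log n / (α log 2)` for large `n`. -/
theorem result :
    (∀ (F Y : Type) [Field F] [Fintype F] [Fintype Y] (L : Y → ℝ) (π : Y → F → ℝ) (ρ δ : ℝ), 0 < δ →
      (∀ y, 0 ≤ L y) → ∑ y, L y = 1 → (∀ y s, 0 ≤ π y s) → (∀ y, ∑ s, π y s = 1) →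
      ∑ y, L y * ∑ s, Real.negMulLog (π y s) < ρ * Real.log (Fintype.card F) →
      ∃ n₀ : ℕ, ∀ n : ℕ, n₀ ≤ n → ∀ (k t : ℕ) (E : (Fin k → F) →ₗ[F] (Fin n → F)),
        ρ * n ≤ k → IsLDC (fun x => E x) δ t →
        Real.log n / Real.log (1 / ((Fintype.card F : ℝ) *
          ∑ y, L y * ∏ s, (π y s) ^ (1 / (Fintype.card F : ℝ)))) ≤ t) ∧
    (∀ ε δ : ℝ, 0 < ε → 0 < δ →
      ∃ α₀ : ℝ, 0 < α₀ ∧ ∀ α : ℝ, 0 < α → α < α₀ → ∃ n₀ : ℕ, ∀ n : ℕ, n₀ ≤ n → ∀ (k t : ℕ)
        (E : (Fin k → ZMod 2) →ₗ[ZMod 2] (Fin n → ZMod 2)), (1 - α) * n ≤ k → IsLDC (fun x => E x) δ t →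
        (1 - ε) * Real.log n / (α * Real.log 2) ≤ t) :=
  ⟨fun _ _ _ _ _ L π ρ δ hδ hL hL1 hπ hπ1 hH => q_final L π ρ δ hδ hL hL1 hπ hπ1 hH, near_one⟩

end Pool.Agent.Results.MP_625cb2_lc.LinearCodes
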